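import Mathlib
import Pool.Agent.Helper42.Pis.Main

set_option autoImplicit false

namespace Pool.Agent.Results.MP_3d048b_an.CotypeLinfty

open Pool.Agent.Helper42.Pis

universe u

/-- For all `q ≥ 2`, `C`, `D` there is `c > 0` such that every `n`-dimensional normed space `X`
(`n ≥ 2`) of cotype `q` with constant `C` which `D`-embeds into `ℓ_∞^N` satisfies
`N ≥ exp (c n)`. -/
theorem result (q C D : ℝ) (hq : 2 ≤ q) : ∃ c : ℝ, 0 < c ∧
    ∀ (n N : ℕ) (X : Type u) [NormedAddCommGroup X] [NormedSpace ℝ X],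
      2 ≤ n → Module.finrank ℝ X = n → HasCotype q C X →
      ∀ T : X →ₗ[ℝ] (Fin N → ℝ), (∀ x, ‖x‖ ≤ ‖T x‖ ∧ ‖T x‖ ≤ D * ‖x‖) →
        Real.exp (c * n) ≤ N :=
  pisier q C D hq

end Pool.Agent.Results.MP_3d048b_an.CotypeLinfty
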